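import Pool.Agent.GCC.NotIso
import Pool.Agent.GCC.SgcChain
import Pool.Agent.GCC.K0IsoEF
import Pool.Agent.GCC.ProjList

/-!
# The graded classification conjecture for Leavitt path algebras fails
-/

namespace Pool.Agent.Results.MP_032b89_al.ClassificationFails

open Pool.Agent.GCC

universe u

/-- There are finite graphs `E`, `F` such that, for every field `K` (of any characteristic), there
is an order-preserving `Γ`-group isomorphism `K₀^Γ(L_K(E)) → K₀^Γ(L_K(F))` sending `[L_K(E)]` to
`[L_K(F)]`, but for no field `K` of characteristic zero are `L_K(E)` and `L_K(F)` graded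
isomorphic as `K`-algebras. -/
theorem result : ∃ E F : FinGraph,
    (∀ (K : Type u) [Field K], K0Iso (LPA.grRing K E) (LPA.grRing K F)) ∧
    (∀ (K : Type u) [Field K] [CharZero K], ¬ GradedIso K E F) := by
  refine ⟨graphE, graphF, ?_, ?_⟩
  · intro K _
    exact K0Iso_EF K (fun P => LPA.exists_list K graphE graphE_noSink P)
      (fun P => LPA.exists_list K graphF graphF_noSink P)
  · intro K _ _
    exact not_gradedIso (fun P hP => sgc_chain AE AE_det AE_trace AE_trace2 P hP) K

end Pool.Agent.Results.MP_032b89_al.ClassificationFails
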